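import Pool.Agent.Helper89.CV.Reduction

/-!
MP_8ee768_co, project TH-Y': counting identities of odd `(13,5,4)`-covers and the kill test.

`cnt B s` = number of blocks containing `s`; `ex B q` = (cnt - 1) / 2 for a quad `q`;
`Lam B s` = sum of `ex` over the quads containing `s`; `mm B u v` = (Lam {u,v} - 1) / 3;
`MM B z` = sum of `mm B z v` over `v ≠ z`.
-/

set_option autoImplicit false

namespace Pool.Agent.Helper97.CV

open Finset Pool.Agent.Helper89.CV

/-- all quads -/
def quads : Finset (Finset (Fin 13)) := powersetCard 4 univ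

/-- number of blocks containing `s` -/
def cnt (B : Finset (Finset (Fin 13))) (s : Finset (Fin 13)) : ℕ := (B.filter fun b => s ⊆ b).card

/-- excess of a quad -/
def ex (B : Finset (Finset (Fin 13))) (q : Finset (Fin 13)) : ℕ := cnt B q / 2

/-- sum of a weight over the quads containing `s` -/
def LamW (g : Finset (Fin 13) → ℕ) (s : Finset (Fin 13)) : ℕ := ∑ q ∈ quads.filter (fun q => s ⊆ q), g q

/-- total excess of the quads containing `s` -/
def Lam (B : Finset (Finset (Fin 13))) (s : Finset (Fin 13)) : ℕ := LamW (ex B) s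

/-- the excess of a pair -/
def mm (B : Finset (Finset (Fin 13))) (u v : Fin 13) : ℕ := Lam B {u, v} / 3

/-- the excess of a point -/
def MM (B : Finset (Finset (Fin 13))) (z : Fin 13) : ℕ := ∑ v ∈ ({z} : Finset (Fin 13))ᶜ, mm B z v

theorem mem_quads {q : Finset (Fin 13)} : q ∈ quads ↔ q.card = 4 := by
  unfold quads
  simp [mem_powersetCard]

/-- double counting of a family of `k`-sets -/
theorem double_count (A : Finset (Finset (Fin 13))) (k : ℕ) (hA : ∀ b ∈ A, b.card = k)
    (g : Finset (Fin 13) → ℕ) (s : Finset (Fin 13)) :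
    ∑ v ∈ sᶜ, ∑ b ∈ A.filter (fun b => insert v s ⊆ b), g b =
      (k - s.card) * ∑ b ∈ A.filter (fun b => s ⊆ b), g b := by
  have h1 : ∀ v ∈ sᶜ, ∑ b ∈ A.filter (fun b => insert v s ⊆ b), g b =
      ∑ b ∈ A.filter (fun b => s ⊆ b), if v ∈ b then g b else 0 := by
    intro v _
    rw [← sum_filter, filter_filter]
    refine sum_congr ?_ fun _ _ => rfl
    ext b
    simp only [mem_filter, insert_subset_iff]
    tauto
  rw [sum_congr rfl h1, sum_comm, mul_sum]
  refine sum_congr rfl fun b hb => ?_
  rw [mem_filter] at hb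
  rw [← sum_filter, sum_const, smul_eq_mul]
  congr 1
  have h2 : sᶜ.filter (fun v => v ∈ b) = b \ s := by
    ext v
    simp only [mem_filter, mem_compl, mem_sdiff]
    tauto
  rw [h2, card_sdiff_of_subset hb.2, hA b hb.1]

theorem cnt_rec {B : Finset (Finset (Fin 13))} (hB : OddCover B) (s : Finset (Fin 13)) :
    ∑ v ∈ sᶜ, cnt B (insert v s) = (5 - s.card) * cnt B s := by
  have h := double_count B 5 hB.1 (fun _ => 1) s
  simpa only [cnt, card_eq_sum_ones] using h

theorem LamW_rec (g : Finset (Fin 13) → ℕ) (s : Finset (Fin 13)) :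
    ∑ v ∈ sᶜ, LamW g (insert v s) = (4 - s.card) * LamW g s := by
  unfold LamW
  exact double_count quads 4 (fun b hb => mem_quads.1 hb) g s

theorem LamW_quad (g : Finset (Fin 13) → ℕ) {q : Finset (Fin 13)} (hq : q.card = 4) :
    LamW g q = g q := by
  unfold LamW
  have h : quads.filter (fun r => q ⊆ r) = {q} := by
    ext r
    simp only [mem_filter, mem_quads, mem_singleton]
    constructor
    · rintro ⟨h1, h2⟩
      exact (eq_of_subset_of_card_le h2 (by omega)).symm
    · rintro rfl
      exact ⟨hq, subset_rfl⟩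
  rw [h, sum_singleton]

theorem cnt_quad {B : Finset (Finset (Fin 13))} (hB : OddCover B) {q : Finset (Fin 13)}
    (hq : q.card = 4) : cnt B q = 1 + 2 * ex B q := by
  obtain ⟨t, ht⟩ := hB.2 q hq
  unfold ex cnt
  omega

theorem card_compl13 {s : Finset (Fin 13)} {k : ℕ} (hs : s.card = k) : (sᶜ).card = 13 - k := by
  rw [card_compl, Fintype.card_fin, hs]

theorem cnt_triple {B : Finset (Finset (Fin 13))} (hB : OddCover B) {t : Finset (Fin 13)}
    (ht : t.card = 3) : cnt B t = 5 + Lam B t := by
  have h1 := cnt_rec hB t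
  have h2 := LamW_rec (ex B) t
  have h3 : ∀ v ∈ tᶜ, cnt B (insert v t) = 1 + 2 * LamW (ex B) (insert v t) := by
    intro v hv
    have h4 : (insert v t).card = 4 := by
      rw [card_insert_of_notMem (mem_compl.1 hv), ht]
    rw [cnt_quad hB h4, LamW_quad _ h4]
  rw [sum_congr rfl h3, sum_add_distrib, ← mul_sum, h2, sum_const, card_compl13 ht, ht] at h1
  unfold Lam
  simp only [smul_eq_mul] at h1
  omega

theorem three_cnt_pair {B : Finset (Finset (Fin 13))} (hB : OddCover B) {p : Finset (Fin 13)}
    (hp : p.card = 2) : 3 * cnt B p = 55 + 2 * Lam B p := by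
  have h1 := cnt_rec hB p
  have h2 := LamW_rec (ex B) p
  have h3 : ∀ v ∈ pᶜ, cnt B (insert v p) = 5 + LamW (ex B) (insert v p) := by
    intro v hv
    have h4 : (insert v p).card = 3 := by
      rw [card_insert_of_notMem (mem_compl.1 hv), hp]
    rw [cnt_triple hB h4]
    rfl
  rw [sum_congr rfl h3, sum_add_distrib, h2, sum_const, card_compl13 hp, hp] at h1
  unfold Lam
  simp only [smul_eq_mul] at h1
  omega

theorem Lam_pair {B : Finset (Finset (Fin 13))} (hB : OddCover B) {u v : Fin 13} (huv : u ≠ v) :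
    Lam B {u, v} = 1 + 3 * mm B u v := by
  have h1 := three_cnt_pair hB (card_pair huv)
  unfold mm
  omega

theorem cnt_pair {B : Finset (Finset (Fin 13))} (hB : OddCover B) {u v : Fin 13} (huv : u ≠ v) :
    cnt B {u, v} = 19 + 2 * mm B u v := by
  have h1 := three_cnt_pair hB (card_pair huv)
  have h2 := Lam_pair hB huv
  omega

theorem mm_comm (B : Finset (Finset (Fin 13))) (u v : Fin 13) : mm B u v = mm B v u := by
  unfold mm
  rw [pair_comm]

theorem Lam_point {B : Finset (Finset (Fin 13))} (hB : OddCover B) (z : Fin 13) :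
    Lam B {z} = 4 + MM B z := by
  have h1 := LamW_rec (ex B) {z}
  have h2 : ∀ v ∈ ({z} : Finset (Fin 13))ᶜ, LamW (ex B) (insert v {z}) = 1 + 3 * mm B z v := by
    intro v hv
    have h3 : z ≠ v := by
      rw [mem_compl, mem_singleton] at hv
      exact fun h => hv h.symm
    rw [← Lam_pair hB h3, pair_comm]
    rfl
  rw [sum_congr rfl h2, sum_add_distrib, ← mul_sum, sum_const,
    card_compl13 (card_singleton z), card_singleton] at h1
  unfold Lam MM
  simp only [smul_eq_mul] at h1
  omega

theorem two_cnt_point {B : Finset (Finset (Fin 13))} (hB : OddCover B) (z : Fin 13) :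
    2 * cnt B {z} = 114 + MM B z := by
  have h1 := cnt_rec hB {z}
  have h2 : ∀ v ∈ ({z} : Finset (Fin 13))ᶜ, cnt B (insert v {z}) = 19 + 2 * mm B z v := by
    intro v hv
    have h3 : z ≠ v := by
      rw [mem_compl, mem_singleton] at hv
      exact fun h => hv h.symm
    rw [← cnt_pair hB h3, pair_comm]
  rw [sum_congr rfl h2, sum_add_distrib, ← mul_sum, sum_const,
    card_compl13 (card_singleton z), card_singleton] at h1
  unfold MM
  simp only [smul_eq_mul] at h1
  omega

theorem MM_even {B : Finset (Finset (Fin 13))} (hB : OddCover B) (z : Fin 13) : Even (MM B z) := by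
  have h := two_cnt_point hB z
  exact ⟨cnt B {z} - 57, by omega⟩

theorem ten_card {B : Finset (Finset (Fin 13))} (hB : OddCover B) :
    10 * B.card = 1482 + ∑ z, MM B z := by
  have h1 := cnt_rec hB ∅
  have h2 : cnt B ∅ = B.card := by
    unfold cnt
    rw [filter_true_of_mem fun b _ => empty_subset b]
  rw [h2, card_empty, compl_empty] at h1
  have h3 : ∑ z, 2 * cnt B {z} = ∑ z : Fin 13, (114 + MM B z) :=
    sum_congr rfl fun z _ => two_cnt_point hB z
  rw [← mul_sum, sum_add_distrib, sum_const, card_univ, Fintype.card_fin, smul_eq_mul] at h3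
  have h4 : ∑ z : Fin 13, cnt B (insert z ∅) = ∑ z : Fin 13, cnt B {z} := by
    refine sum_congr rfl fun z _ => ?_
    rw [insert_empty_eq]
  rw [h4] at h1
  omega

/-- total excess of all quads -/
theorem four_Lam_empty {B : Finset (Finset (Fin 13))} (hB : OddCover B) :
    4 * Lam B ∅ = 52 + ∑ z, MM B z := by
  have h1 := LamW_rec (ex B) ∅
  rw [card_empty, compl_empty] at h1
  have h3 : ∑ z : Fin 13, LamW (ex B) (insert z ∅) = ∑ z : Fin 13, (4 + MM B z) := by
    refine sum_congr rfl fun z _ => ?_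
    rw [insert_empty_eq]
    exact Lam_point hB z
  rw [h3, sum_add_distrib, sum_const, card_univ, Fintype.card_fin, smul_eq_mul] at h1
  unfold Lam
  omega

theorem sum_MM_le {B : Finset (Finset (Fin 13))} (hB : OddCover B) (h157 : B.card ≤ 157) :
    ∑ z, MM B z ≤ 88 := by
  have h := ten_card hB
  omega

theorem Lam_empty_le {B : Finset (Finset (Fin 13))} (hB : OddCover B) (h157 : B.card ≤ 157) :
    Lam B ∅ ≤ 35 := by
  have h1 := sum_MM_le hB h157
  have h2 := four_Lam_empty hB
  omega

/-- lower bound of `mm` from known bad quads -/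
theorem mm_ge {B : Finset (Finset (Fin 13))} (hB : OddCover B) {g : Finset (Fin 13) → ℕ}
    (hg : ∀ q, q.card = 4 → g q ≤ ex B q) {u v : Fin 13} (huv : u ≠ v) :
    (LamW g {u, v} + 1) / 3 ≤ mm B u v := by
  have h1 : LamW g {u, v} ≤ Lam B {u, v} := by
    unfold Lam LamW
    exact sum_le_sum fun q hq => hg q (mem_quads.1 (mem_filter.1 hq).1)
  have h2 := Lam_pair hB huv
  omega

/-- lower bound of `MM` from known bad quads, rounded up to an even number -/
def mlow (g : Finset (Fin 13) → ℕ) (z : Fin 13) : ℕ :=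
  2 * ((∑ v ∈ ({z} : Finset (Fin 13))ᶜ, (LamW g {z, v} + 1) / 3 + 1) / 2)

theorem mlow_le {B : Finset (Finset (Fin 13))} (hB : OddCover B) {g : Finset (Fin 13) → ℕ}
    (hg : ∀ q, q.card = 4 → g q ≤ ex B q) (z : Fin 13) : mlow g z ≤ MM B z := by
  have h1 : ∑ v ∈ ({z} : Finset (Fin 13))ᶜ, (LamW g {z, v} + 1) / 3 ≤ MM B z := by
    unfold MM
    refine sum_le_sum fun v hv => mm_ge hB hg ?_
    rw [mem_compl, mem_singleton] at hv
    exact fun h => hv h.symm
  obtain ⟨t, ht⟩ := MM_even hB z
  unfold mlow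
  omega

/-- KILL TEST: known bad quads `g` and known lower bounds `l` of the `MM` -/
theorem kill {B : Finset (Finset (Fin 13))} (hB : OddCover B) (h157 : B.card ≤ 157)
    {g : Finset (Fin 13) → ℕ} (hg : ∀ q, q.card = 4 → g q ≤ ex B q) {l : Fin 13 → ℕ}
    (hl : ∀ z, l z ≤ MM B z) : ∑ z, max (l z) (mlow g z) ≤ 88 :=
  (sum_le_sum fun z _ => max_le (hl z) (mlow_le hB hg z)).trans (sum_MM_le hB h157)

/-- the link of `x` -/
def link (B : Finset (Finset (Fin 13))) (x : Fin 13) : Finset (Finset (Fin 13)) :=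
  (B.filter fun b => x ∈ b).image fun b => b.erase x

theorem mem_link {B : Finset (Finset (Fin 13))} {x : Fin 13} {q : Finset (Fin 13)} :
    q ∈ link B x ↔ x ∉ q ∧ insert x q ∈ B := by
  unfold link
  simp only [mem_image, mem_filter]
  constructor
  · rintro ⟨b, ⟨hb, hx⟩, rfl⟩
    exact ⟨notMem_erase x b, by rwa [insert_erase hx]⟩
  · rintro ⟨hx, hb⟩
    exact ⟨insert x q, ⟨hb, mem_insert_self x q⟩, erase_insert hx⟩

/-- a quad outside `K` lying in `c` of the links of `K` has excess at least `c / 2` -/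
theorem ex_ge_of_links {B : Finset (Finset (Fin 13))} {K : Finset (Fin 13)} {q : Finset (Fin 13)}
    (hK : Disjoint K q) : (K.filter fun x => q ∈ link B x).card / 2 ≤ ex B q := by
  unfold ex cnt
  refine Nat.div_le_div_right ?_
  refine card_le_card_of_injOn (fun x => insert x q) ?_ ?_
  · intro x hx
    rw [mem_coe, mem_filter] at hx ⊢
    exact ⟨(mem_link.1 hx.2).2, subset_insert x q⟩
  · intro x hx y hy hxy
    rw [mem_coe, mem_filter] at hx hy
    have h1 : x ∈ insert y q := by
      have : x ∈ insert x q := mem_insert_self x q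
      simp only at hxy
      rwa [hxy] at this
    rcases mem_insert.1 h1 with h2 | h2
    · exact h2
    · exact absurd h2 (disjoint_left.1 hK hx.1)

end Pool.Agent.Helper97.CV
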