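import Pool.Agent.Helper63.SIMD.Pack

/-!
TH-Y': the packed kill test for `n` lanes.

A lane has 14 rows of 13 fields of 13 bits (stride 2366 bits): field `13 z + v` of the lane is a lower
bound `f z v` of the total excess of the quads through `z` and `v` (diagonal and row 13 are zero). `L`
has one lower bound of the excess of the point `z` in row `z` (stride 169). `killL n L G` has the top
bit of lane `i` set iff the resulting lower bound of the sum of all point excesses is at least 89.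
-/

set_option autoImplicit false
set_option exponentiation.threshold 3000

namespace Pool.Agent.Helper97.CV.KillW

open Finset Pool.Agent.Helper63.SIMD

theorem pk_append (W M N : ℕ) (a : ℕ → ℕ) :
    pk W (M + N) a = pk W M a + 2 ^ (W * M) * pk W N (fun i => a (M + i)) := by
  unfold pk
  rw [sum_range_add, mul_sum]
  congr 1
  refine sum_congr rfl fun i _ => ?_
  rw [Nat.mul_add, pow_add]
  ring

theorem pk_group (W K R : ℕ) (b : ℕ → ℕ) :
    pk W (K * R) b = pk (W * K) R (fun z => pk W K (fun v => b (K * z + v))) := by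
  induction R with
  | zero => simp [pk]
  | succ R ih =>
    rw [Nat.mul_succ, pk_append, ih, pk_succ]
    congr 1
    rw [← Nat.mul_assoc, mul_comm]

/-- extension by zero -/
def ext (N : ℕ) (t : ℕ → ℕ) (i : ℕ) : ℕ := if i < N then t i else 0

theorem pk_ext {W N M : ℕ} (h : N ≤ M) (t : ℕ → ℕ) : pk W N t = pk W M (ext N t) := by
  obtain ⟨k, rfl⟩ := Nat.exists_eq_add_of_le h
  rw [pk_append]
  have h1 : pk W k (fun i => ext N t (N + i)) = 0 := by
    unfold pk
    refine sum_eq_zero fun i _ => ?_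
    have h2 : ext N t (N + i) = 0 := if_neg (by omega)
    show ext N t (N + i) * 2 ^ (W * i) = 0
    rw [h2, zero_mul]
  rw [h1, mul_zero, add_zero]
  refine pk_congr fun i hi => ?_
  exact (if_pos hi).symm

theorem pk_shiftLeft {W N K M : ℕ} (h : K + N ≤ M) (t : ℕ → ℕ) :
    pk W N t * 2 ^ (W * K) = pk W M (fun j => if K ≤ j then ext N t (j - K) else 0) := by
  obtain ⟨k, rfl⟩ := Nat.exists_eq_add_of_le (show K ≤ M by omega)
  rw [pk_append]
  have h1 : pk W K (fun j => if K ≤ j then ext N t (j - K) else 0) = 0 := by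
    unfold pk
    refine sum_eq_zero fun i hi => ?_
    have h2 : ¬ K ≤ i := by have := mem_range.1 hi; omega
    show (if K ≤ i then ext N t (i - K) else 0) * 2 ^ (W * i) = 0
    rw [if_neg h2, zero_mul]
  rw [h1, zero_add, mul_comm, pk_ext (show N ≤ k by omega) t]
  congr 1
  refine pk_congr fun i _ => ?_
  show ext N t i = if K ≤ K + i then ext N t (K + i - K) else 0
  rw [if_pos (by omega), Nat.add_sub_cancel_left]

theorem pk_mul_ones {W N K M : ℕ} (h : K + N ≤ M + 1) (t : ℕ → ℕ) :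
    pk W N t * pk W K (fun _ => 1) =
      pk W M (fun j => ∑ k ∈ range K, if k ≤ j then ext N t (j - k) else 0) := by
  induction K with
  | zero =>
    simp [pk]
  | succ K ih =>
    rw [pk_succ, one_mul, Nat.mul_add, ih (by omega), pk_shiftLeft (show K + N ≤ M by omega), pk_add]
    exact pk_congr fun i _ => (sum_range_succ _ _).symm

theorem pk_shiftRight {W N K : ℕ} (c : ℕ → ℕ) (hc : ∀ i < K, c i < 2 ^ W) :
    pk W (K + N) c >>> (W * K) = pk W N (fun i => c (K + i)) := by
  rw [pk_append, Nat.shiftRight_eq_div_pow, Nat.add_mul_div_left _ _ (Nat.two_pow_pos _),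
    Nat.div_eq_of_lt (pk_lt hc), zero_add]

/-- sums of blocks of `K` consecutive fields -/
theorem blockSum {W K R : ℕ} (hW : 0 < W) (hK : 0 < K) (t : ℕ → ℕ) (c : ℕ) (ht : ∀ i, t i ≤ c)
    (hc : K * c < 2 ^ W) :
    ((pk W (K * R) t * rep W K) >>> (W * (K - 1))) &&& ((2 ^ W - 1) * rep (W * K) R) =
      pk (W * K) R (fun z => ∑ v ∈ range K, t (K * z + v)) := by
  obtain ⟨K', rfl⟩ : ∃ K', K = K' + 1 := ⟨K - 1, by omega⟩
  have hWK : 0 < W * (K' + 1) := Nat.mul_pos hW hK
  rw [rep_eq hW, pk_mul_ones (show (K' + 1) + (K' + 1) * R ≤ ((K' + 1) - 1 + (K' + 1) * R) + 1 by omega)]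
  have hb : ∀ j, (∑ k ∈ range (K' + 1), if k ≤ j then ext ((K' + 1) * R) t (j - k) else 0) < 2 ^ W := by
    intro j
    refine lt_of_le_of_lt ?_ hc
    calc (∑ k ∈ range (K' + 1), if k ≤ j then ext ((K' + 1) * R) t (j - k) else 0) ≤ ∑ _k ∈ range (K' + 1), c := by
          refine sum_le_sum fun k _ => ?_
          unfold ext
          split_ifs
          · exact ht _
          · exact Nat.zero_le _
          · exact Nat.zero_le _
      _ = (K' + 1) * c := by rw [sum_const, card_range, smul_eq_mul]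
  rw [pk_shiftRight _ (fun i _ => hb i), pk_group, mul_rep hWK]
  have h2 : ∀ z < R, pk W (K' + 1) (fun v => ∑ k ∈ range (K' + 1),
      if k ≤ (K' + 1) - 1 + ((K' + 1) * z + v) then ext ((K' + 1) * R) t ((K' + 1) - 1 + ((K' + 1) * z + v) - k) else 0) <
      2 ^ (W * (K' + 1)) := fun z _ => pk_lt fun v _ => hb _
  rw [pk_land h2]
  · refine pk_congr fun z hz => ?_
    rw [Nat.and_two_pow_sub_one_eq_mod, pk_cons, Nat.mul_add_mod]
    rw [Nat.mod_eq_of_lt (hb _), ← sum_range_reflect]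
    refine sum_congr rfl fun k hk => ?_
    have hk := mem_range.1 hk
    have hKz : (K' + 1) * z + (K' + 1) ≤ (K' + 1) * R := by
      have := Nat.mul_le_mul_left (K' + 1) hz
      rw [Nat.mul_succ] at this
      exact this
    have e1 : K' + 1 - 1 - k ≤ K' + 1 - 1 + ((K' + 1) * z + 0) := by omega
    have e2 : K' + 1 - 1 + ((K' + 1) * z + 0) - (K' + 1 - 1 - k) = (K' + 1) * z + k := by omega
    rw [if_pos e1, e2]
    exact if_pos (by omega)
  · intro i _
    have h3 : 2 ^ W ≤ 2 ^ (W * (K' + 1)) := Nat.pow_le_pow_right (by norm_num) (Nat.le_mul_of_pos_right W hK)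
    have h4 := Nat.two_pow_pos W
    omega

/-- division of all fields by `2 ^ k` -/
theorem pk_shr_land {W N k : ℕ} (hk : k ≤ W) (a : ℕ → ℕ) (ha : ∀ i < N, a i < 2 ^ W) :
    (pk W N a >>> k) &&& pk W N (fun _ => 2 ^ (W - k) - 1) = pk W N (fun i => a i / 2 ^ k) := by
  induction N generalizing a with
  | zero => simp [pk]
  | succ N ih =>
    rw [pk_cons, pk_cons, pk_cons]
    have h0 := ha 0 (by omega)
    have hW2 : 2 ^ W = 2 ^ k * 2 ^ (W - k) := by rw [← pow_add]; congr 1; omega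
    have hkp := Nat.two_pow_pos k
    have hwk := Nat.two_pow_pos (W - k)
    set X := pk W N (fun i => a (i + 1)) with hX
    have h1 : (2 ^ W * X + a 0) >>> k =
        2 ^ W * (X >>> k) + (2 ^ (W - k) * (X % 2 ^ k) + a 0 / 2 ^ k) := by
      rw [Nat.shiftRight_eq_div_pow, Nat.shiftRight_eq_div_pow, hW2, Nat.mul_assoc,
        Nat.mul_add_div hkp]
      have h2 : X = 2 ^ k * (X / 2 ^ k) + X % 2 ^ k := (Nat.div_add_mod X (2 ^ k)).symm
      conv_lhs => rw [h2]
      ring
    have h3 : a 0 / 2 ^ k < 2 ^ (W - k) := by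
      rw [Nat.div_lt_iff_lt_mul hkp, mul_comm, ← hW2]
      exact h0
    have h4 : 2 ^ (W - k) * (X % 2 ^ k) + a 0 / 2 ^ k < 2 ^ W := by
      have h5 : X % 2 ^ k < 2 ^ k := Nat.mod_lt _ hkp
      calc 2 ^ (W - k) * (X % 2 ^ k) + a 0 / 2 ^ k
          < 2 ^ (W - k) * (X % 2 ^ k) + 2 ^ (W - k) := by omega
        _ = 2 ^ (W - k) * (X % 2 ^ k + 1) := by ring
        _ ≤ 2 ^ (W - k) * 2 ^ k := Nat.mul_le_mul_left _ h5
        _ = 2 ^ W := by rw [hW2, mul_comm]
    have h6 : 2 ^ (W - k) - 1 < 2 ^ W := by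
      have : 2 ^ (W - k) ≤ 2 ^ W := Nat.pow_le_pow_right (by norm_num) (by omega)
      omega
    rw [h1, land_cons h4 h6, ih (fun i => a (i + 1)) (fun i hi => ha (i + 1) (by omega)),
      Nat.and_two_pow_sub_one_eq_mod, Nat.mul_add_mod, Nat.mod_eq_of_lt h3]

/-- floor((f + 1) / 3) for `f ≤ 126` -/
theorem third {x : ℕ} (hx : x ≤ 127) : x * 43 / 2 ^ 7 = x / 3 := by
  have : ∀ y < 128, y * 43 / 2 ^ 7 = y / 3 := by decide
  exact this x (by omega)

/-- the number of lanes is `n` -/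
def mW (n G : ℕ) : ℕ := (((G + rep 13 (182 * n)) * 43) >>> 7) &&& (63 * rep 13 (182 * n))

theorem mW_pk {n : ℕ} {f : ℕ → ℕ} (hf : ∀ i, f i ≤ 126) :
    mW n (pk 13 (182 * n) f) = pk 13 (182 * n) (fun i => (f i + 1) / 3) := by
  unfold mW
  rw [mul_rep (by norm_num), rep_eq (by norm_num), pk_add, mul_comm, mul_pk]
  have h := pk_shr_land (W := 13) (N := 182 * n) (k := 7) (by norm_num)
    (fun i => 43 * (f i + 1)) (fun i _ => by have := hf i; show 43 * (f i + 1) < 2 ^ 13; omega)
  rw [show (2 : ℕ) ^ (13 - 7) - 1 = 63 by norm_num] at h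
  rw [h]
  refine pk_congr fun i _ => ?_
  rw [mul_comm, third (by have := hf i; omega)]

/-- row sums rounded up to even numbers -/
def XW (n m : ℕ) : ℕ :=
  ((((m * rep 13 13) >>> 156) &&& (8191 * rep 169 (14 * n))) + rep 169 (14 * n)) &&&
    (8190 * rep 169 (14 * n))

theorem land_even {x : ℕ} (hx : x < 8192) : x &&& 8190 = 2 * (x / 2) := by
  have h := land_cons (W := 1) (x := x / 2) (y := 4095) (p := x % 2) (q := 0)
    (by omega) (by norm_num)
  have e1 : 2 ^ 1 * (x / 2) + x % 2 = x := by omega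
  have e2 : 2 ^ 1 * 4095 + 0 = 8190 := by norm_num
  rw [e1, e2, Nat.and_zero, show (4095 : ℕ) = 2 ^ 12 - 1 by norm_num,
    Nat.and_two_pow_sub_one_eq_mod, Nat.mod_eq_of_lt (show x / 2 < 2 ^ 12 by omega)] at h
  omega

theorem XW_pk {n : ℕ} {t : ℕ → ℕ} (ht : ∀ i, t i ≤ 63) :
    XW n (pk 13 (182 * n) t) =
      pk 169 (14 * n) (fun z => 2 * ((∑ v ∈ range 13, t (13 * z + v) + 1) / 2)) := by
  unfold XW
  have h := blockSum (W := 13) (K := 13) (R := 14 * n) (by norm_num) (by norm_num) t 63 ht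
    (by norm_num)
  rw [show 13 * (14 * n) = 182 * n by ring, show 13 * (13 - 1) = 156 by norm_num,
    show (2 : ℕ) ^ 13 - 1 = 8191 by norm_num, show 13 * 13 = 169 by norm_num] at h
  rw [h, rep_eq (W := 169) (by norm_num), pk_add, mul_pk, pk_land]
  · refine pk_congr fun z _ => ?_
    have h1 : ∑ v ∈ range 13, t (13 * z + v) ≤ 13 * 63 := by
      calc ∑ v ∈ range 13, t (13 * z + v) ≤ ∑ _v ∈ range 13, 63 := sum_le_sum fun v _ => ht _
        _ = 13 * 63 := by simp
    rw [mul_one, land_even (by omega)]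
  · intro z _
    have h1 : ∑ v ∈ range 13, t (13 * z + v) ≤ 13 * 63 := by
      calc ∑ v ∈ range 13, t (13 * z + v) ≤ ∑ _v ∈ range 13, 63 := sum_le_sum fun v _ => ht _
        _ = 13 * 63 := by simp
    have h2 : (2 : ℕ) ^ 13 ≤ 2 ^ 169 := Nat.pow_le_pow_right (by norm_num) (by norm_num)
    have h3 : (2 : ℕ) ^ 13 = 8192 := by norm_num
    omega
  · intro z _
    have h2 : (2 : ℕ) ^ 13 ≤ 2 ^ 169 := Nat.pow_le_pow_right (by norm_num) (by norm_num)
    have h3 : (2 : ℕ) ^ 13 = 8192 := by norm_num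
    omega

/-- maximum with the lower bounds `L` -/
def maxW (n L X : ℕ) : ℕ :=
  (fun d => (fun msk => ((X &&& msk) + L) - (L &&& msk)) (d - (d >>> 12)))
    ((X + (4096 * rep 169 (14 * n) - L)) &&& (4096 * rep 169 (14 * n)))

theorem land4095 {x : ℕ} (hx : x < 4096) : x &&& 4095 = x := by
  rw [show (4095 : ℕ) = 2 ^ 12 - 1 by norm_num, Nat.and_two_pow_sub_one_eq_mod]
  exact Nat.mod_eq_of_lt (by omega)

theorem land4096 {x : ℕ} (hx : x < 8192) : x &&& 4096 = if 4096 ≤ x then 4096 else 0 := by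
  have h := land_cons (W := 12) (x := x / 2 ^ 12) (y := 1) (p := x % 2 ^ 12) (q := 0)
    (Nat.mod_lt _ (Nat.two_pow_pos 12)) (by norm_num)
  have e1 : 2 ^ 12 * (x / 2 ^ 12) + x % 2 ^ 12 = x := Nat.div_add_mod x (2 ^ 12)
  have e2 : 2 ^ 12 * 1 + 0 = 4096 := by norm_num
  rw [e1, e2, Nat.and_zero, Nat.and_one_is_mod] at h
  rw [h]
  split_ifs with h1
  · omega
  · omega

theorem maxW_pk {n : ℕ} {l x : ℕ → ℕ} (hl : ∀ i, l i < 4096) (hx : ∀ i, x i < 4096) :
    maxW n (pk 169 (14 * n) l) (pk 169 (14 * n) x) = pk 169 (14 * n) (fun z => max (l z) (x z)) := by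
  have hbig : (8192 : ℕ) ≤ 2 ^ 169 := by
    calc (8192 : ℕ) = 2 ^ 13 := by norm_num
      _ ≤ 2 ^ 169 := Nat.pow_le_pow_right (by norm_num) (by norm_num)
  unfold maxW
  have h1 : pk 169 (14 * n) x + (4096 * rep 169 (14 * n) - pk 169 (14 * n) l) =
      pk 169 (14 * n) (fun i => x i + (4096 - l i)) := by
    rw [mul_rep (by norm_num), pk_sub (fun i _ => (hl i).le), pk_add]
  have h2 : (pk 169 (14 * n) x + (4096 * rep 169 (14 * n) - pk 169 (14 * n) l)) &&&
      (4096 * rep 169 (14 * n)) = pk 169 (14 * n) (fun i => if l i ≤ x i then 4096 else 0) := by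
    rw [h1, mul_rep (by norm_num), pk_land]
    · refine pk_congr fun i _ => ?_
      have h3 := hl i
      have h4 := hx i
      rw [land4096 (by omega)]
      by_cases h5 : l i ≤ x i
      · rw [if_pos (by omega), if_pos h5]
      · rw [if_neg (by omega), if_neg h5]
    · intro i _
      have h3 := hl i
      have h4 := hx i
      omega
    · intro i _
      omega
  simp only []
  rw [h2]
  have h3 : pk 169 (14 * n) (fun i => if l i ≤ x i then 4096 else 0) -
      (pk 169 (14 * n) (fun i => if l i ≤ x i then 4096 else 0)) >>> 12 =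
      pk 169 (14 * n) (fun i => if l i ≤ x i then 4095 else 0) := by
    have h4 : pk 169 (14 * n) (fun i => if l i ≤ x i then 4096 else 0) =
        2 ^ 12 * pk 169 (14 * n) (fun i => if l i ≤ x i then 1 else 0) := by
      rw [mul_pk]
      exact pk_congr fun i _ => by split_ifs <;> norm_num
    rw [h4, Nat.shiftRight_eq_div_pow, Nat.mul_div_cancel_left _ (Nat.two_pow_pos 12), mul_pk,
      pk_sub]
    · exact pk_congr fun i _ => by split_ifs <;> norm_num
    · intro i _
      show (if l i ≤ x i then 1 else 0) ≤ 2 ^ 12 * (if l i ≤ x i then 1 else 0)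
      split_ifs <;> norm_num
  rw [h3]
  have hm : ∀ i < 14 * n, (fun i => if l i ≤ x i then 4095 else 0) i < 2 ^ 169 := by
    intro i _
    show (if l i ≤ x i then 4095 else 0) < 2 ^ 169
    split_ifs <;> omega
  rw [pk_land (fun i _ => by have := hx i; omega) hm, pk_land (fun i _ => by have := hl i; omega) hm,
    pk_add, pk_sub]
  · refine pk_congr fun i _ => ?_
    have h5 := hl i
    have h6 := hx i
    by_cases h7 : l i ≤ x i
    · simp only [if_pos h7]
      rw [land4095 h6, land4095 h5, max_eq_right h7]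
      omega
    · simp only [if_neg h7]
      rw [Nat.and_zero, Nat.and_zero, max_eq_left (by omega)]
      omega
  · intro i _
    show (l i &&& if l i ≤ x i then 4095 else 0) ≤ (x i &&& if l i ≤ x i then 4095 else 0) + l i
    have : (l i &&& if l i ≤ x i then 4095 else 0) ≤ l i := Nat.and_le_left
    omega

/-- total of the 14 rows of each lane -/
def totW (n Y : ℕ) : ℕ := ((Y * rep 169 14) >>> 2197) &&& ((2 ^ 169 - 1) * rep 2366 n)

theorem totW_pk {n : ℕ} {y : ℕ → ℕ} (hy : ∀ i, y i < 4096) :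
    totW n (pk 169 (14 * n) y) = pk 2366 n (fun i => ∑ z ∈ range 14, y (14 * i + z)) := by
  unfold totW
  have hbig : (14 * 4096 : ℕ) < 2 ^ 169 := by
    calc (14 * 4096 : ℕ) < 2 ^ 16 := by norm_num
      _ ≤ 2 ^ 169 := Nat.pow_le_pow_right (by norm_num) (by norm_num)
  have h := blockSum (W := 169) (K := 14) (R := n) (by norm_num) (by norm_num) y 4096
    (fun i => (hy i).le) hbig
  rw [show 169 * (14 - 1) = 2197 by norm_num, show 169 * 14 = 2366 by norm_num] at h
  exact h

/-- THE PACKED KILL TEST -/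
def killL (n L G : ℕ) : ℕ := geT 2366 n 89 (totW n (maxW n L (XW n (mW n G))))

theorem killL_pk {n : ℕ} {f l : ℕ → ℕ} (hf : ∀ i, f i ≤ 126) (hl : ∀ i, l i < 4096) :
    killL n (pk 169 (14 * n) l) (pk 13 (182 * n) f) =
      pk 2366 n (fun i => if 89 ≤ ∑ z ∈ range 14, max (l (14 * i + z))
        (2 * ((∑ v ∈ range 13, (f (13 * (14 * i + z) + v) + 1) / 3 + 1) / 2))
        then 2 ^ 2365 else 0) := by
  unfold killL
  have h1 : ∀ i, (f i + 1) / 3 ≤ 63 := fun i => by have := hf i; omega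
  have h2 : ∀ z, 2 * ((∑ v ∈ range 13, (f (13 * z + v) + 1) / 3 + 1) / 2) < 4096 := by
    intro z
    have h3 : ∑ v ∈ range 13, (f (13 * z + v) + 1) / 3 ≤ 13 * 63 := by
      calc ∑ v ∈ range 13, (f (13 * z + v) + 1) / 3 ≤ ∑ _v ∈ range 13, 63 :=
            sum_le_sum fun v _ => h1 _
        _ = 13 * 63 := by simp
    omega
  have h4 : ∀ z, max (l z) (2 * ((∑ v ∈ range 13, (f (13 * z + v) + 1) / 3 + 1) / 2)) < 4096 :=
    fun z => max_lt (hl z) (h2 z)
  rw [mW_pk hf, XW_pk h1, maxW_pk hl h2, totW_pk h4]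
  have h5 := geT_pk (W := 2366) (N := n) (t := 89)
    (a := fun i => ∑ z ∈ range 14, max (l (14 * i + z))
        (2 * ((∑ v ∈ range 13, (f (13 * (14 * i + z) + v) + 1) / 3 + 1) / 2))) (by norm_num)
    (by
      calc (89 : ℕ) ≤ 2 ^ 7 := by norm_num
        _ ≤ 2 ^ (2366 - 1) := Nat.pow_le_pow_right (by norm_num) (by norm_num))
    (by
      intro i _
      calc ∑ z ∈ range 14, max (l (14 * i + z))
            (2 * ((∑ v ∈ range 13, (f (13 * (14 * i + z) + v) + 1) / 3 + 1) / 2))
          ≤ ∑ _z ∈ range 14, 4096 := sum_le_sum fun z _ => (h4 _).le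
        _ = 14 * 4096 := by simp
        _ < 2 ^ 16 := by norm_num
        _ ≤ 2 ^ (2366 - 1) := Nat.pow_le_pow_right (by norm_num) (by norm_num))
  exact h5

end Pool.Agent.Helper97.CV.KillW
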