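import Pool.Agent.Helper97.CV.Kill11

/-!
TH-Y': soundness of the kill test in the frame `K = {11, 12}`.
-/

set_option autoImplicit false
set_option exponentiation.threshold 40000

namespace Pool.Agent.Helper97.CV.Kill11

open Finset Pool.Agent.Helper63.SIMD Pool.Agent.Helper97.CV.KillW Pool.Agent.Helper97.CV.Cube11
open Pool.Agent.Helper89.CV
open Pool.Agent.Helper79.CV (L mem_L lt_of_mem_L)

theorem P1_eq : P1 = (range 11).image (fun z => 2 ^ z) := by decide +kernel

theorem sum_P1 (f : ℕ → ℕ) : ∑ r ∈ P1, f r = ∑ z ∈ range 11, f (2 ^ z) := by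
  rw [P1_eq, sum_image]
  intro a _ b _ h
  exact Nat.pow_right_injective (le_refl 2) h

theorem two_pow_notMem {z : ℕ} (hz : z < 10) : 2 ^ (z + 1) ∉ P2 := by
  have h : ∀ z < 10, 2 ^ (z + 1) ∉ P2 := by decide +kernel
  exact h z hz

/-- `lane i` of the result is a valid lower bound -/
structure Sound (B : Finset (Finset (Fin 13))) (u v p a l : ℕ → ℕ) : Prop where
  pair : ∀ z w : Fin 13, z.val < 11 → w.val < 11 → z ≠ w →
    (fF u v p (2 ^ z.val + 2 ^ w.val) + 1) / 3 ≤ mm B z w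
  off : ∀ z : Fin 13, z.val < 11 → a (2 ^ z.val) ≤ mm B z 11 + mm B z 12 + 1
  low : ∀ z : Fin 13, z.val < 11 → l (2 ^ z.val) ≤ MM B z

theorem tF_third (f : ℕ → ℕ) (r : ℕ) : tF f r ≤ (f r + 1) / 3 := by
  unfold tF
  split_ifs <;> omega

theorem MM_split (B : Finset (Finset (Fin 13))) (z : Fin 13) (hz : z.val < 11) :
    MM B z = ∑ w ∈ range 11, (if h : w < 11 then
      (if w = z.val then 0 else mm B z ⟨w, by omega⟩) else 0) +
      (mm B z 11 + mm B z 12) := by
  unfold MM
  have h1 : ∑ v ∈ ({z} : Finset (Fin 13))ᶜ, mm B z v = ∑ v : Fin 13, if v = z then 0 else mm B z v := by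
    rw [Finset.sum_ite, sum_const_zero, zero_add]
    refine sum_congr ?_ fun _ _ => rfl
    ext v
    simp
  rw [h1]
  have h2 : ∑ v : Fin 13, (if v = z then 0 else mm B z v) =
      ∑ w ∈ range 13, (if h : w < 13 then
        (if (⟨w, h⟩ : Fin 13) = z then 0 else mm B z ⟨w, h⟩) else 0) := by
    rw [Finset.sum_range]
    refine sum_congr rfl fun v _ => ?_
    rw [dif_pos v.isLt]
  rw [h2, sum_range_succ, sum_range_succ, add_assoc]
  have h11 : (⟨11, by norm_num⟩ : Fin 13) ≠ z := fun h => by rw [← h] at hz; simp at hz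
  have h12 : (⟨12, by norm_num⟩ : Fin 13) ≠ z := fun h => by rw [← h] at hz; simp at hz
  congr 1
  · refine sum_congr rfl fun w hw => ?_
    have hw := mem_range.1 hw
    rw [dif_pos (show w < 13 by omega), dif_pos hw]
    by_cases h : w = z.val
    · rw [if_pos h, if_pos (Fin.ext h)]
    · rw [if_neg h, if_neg (fun h3 => h (congrArg Fin.val h3))]
  · rw [dif_pos (by norm_num), if_neg h11,
      dif_pos (by norm_num), if_neg h12]
    rfl

theorem xF_le {B : Finset (Finset (Fin 13))} (hB : OddCover B) {u v p a l : ℕ → ℕ}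
    (h : Sound B u v p a l) (z : Fin 13) (hz : z.val < 11) :
    xF (tF (fF u v p)) a (2 ^ z.val) ≤ MM B z := by
  have h1 : ∑ q ∈ P1, KillW.ext 2048 (tF (fF u v p)) (2 ^ z.val + q) ≤
      ∑ w ∈ range 11, (if h : w < 11 then
      (if w = z.val then 0 else mm B z ⟨w, by omega⟩) else 0) := by
    rw [sum_P1]
    refine sum_le_sum fun w hw => ?_
    have hw := mem_range.1 hw
    rw [dif_pos hw]
    by_cases hwz : w = z.val
    · rw [if_pos hwz, hwz, ← two_mul, ← pow_succ']
      by_cases h9 : z.val < 10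
      · unfold KillW.ext tF
        rw [if_neg (two_pow_notMem h9)]
        split_ifs <;> exact le_rfl
      · have h10 : z.val = 10 := by omega
        unfold KillW.ext
        rw [h10, if_neg (by norm_num)]
    · rw [if_neg hwz]
      unfold KillW.ext
      split_ifs
      · exact (tF_third _ _).trans (h.pair z ⟨w, by omega⟩ hz hw
          (fun h3 => hwz (congrArg Fin.val h3).symm))
      · exact Nat.zero_le _
  have h2 := MM_split B z hz
  have h3 := h.off z hz
  obtain ⟨t, ht⟩ := MM_even hB z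
  unfold xF
  split_ifs
  · omega
  · exact Nat.zero_le _

theorem rF_le {B : Finset (Finset (Fin 13))} (hB : OddCover B) {u v p a l : ℕ → ℕ}
    (h : Sound B u v p a l) (z : Fin 13) (hz : z.val < 11) :
    rF u v p a l (2 ^ z.val) ≤ MM B z := max_le (h.low z hz) (xF_le hB h z hz)

theorem sum_MM_outside {B : Finset (Finset (Fin 13))} (hB : OddCover B) (h157 : B.card ≤ 157) :
    ∑ z ∈ range 11, (if h : z < 11 then MM B ⟨z, by omega⟩ else 0) +
      (MM B 11 + MM B 12) ≤ 88 := by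
  have h1 := sum_MM_le hB h157
  have h2 : ∑ z, MM B z = ∑ w ∈ range 13, (if h : w < 13 then MM B ⟨w, h⟩ else 0) := by
    rw [Finset.sum_range]
    exact sum_congr rfl fun v _ => by rw [dif_pos v.isLt]
  rw [h2, sum_range_succ, sum_range_succ, dif_pos (by norm_num),
    dif_pos (by norm_num)] at h1
  have h3 : ∑ z ∈ range 11, (if h : z < 13 then MM B ⟨z, h⟩ else 0) =
      ∑ z ∈ range 11, (if h : z < 11 then MM B ⟨z, by omega⟩ else 0) := by
    refine sum_congr rfl fun z hz => ?_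
    have hz := mem_range.1 hz
    rw [dif_pos (show z < 13 by omega), dif_pos hz]
  rw [h3] at h1
  have e11 : (⟨11, by norm_num⟩ : Fin 13) = 11 := rfl
  have e12 : (⟨12, by norm_num⟩ : Fin 13) = 12 := rfl
  rw [e11, e12] at h1
  omega

/-- the total of a lane -/
theorem total_le {B : Finset (Finset (Fin 13))} (hB : OddCover B) (h157 : B.card ≤ 157)
    {u v p a l : ℕ → ℕ} (h : Sound B u v p a l) :
    ∑ z ∈ range 11, rF u v p a l (2 ^ z) + (MM B 11 + MM B 12) ≤ 88 := by
  refine le_trans (Nat.add_le_add_right (sum_le_sum fun z hz => ?_) _) (sum_MM_outside hB h157)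
  have hz := mem_range.1 hz
  rw [dif_pos hz]
  exact rF_le hB h ⟨z, by omega⟩ hz

theorem rF_zero {u v p a l : ℕ → ℕ} (h : Ok u v p a l) {r : ℕ} (hr : r ∉ P1) :
    rF u v p a l r = 0 := by
  unfold rF xF
  rw [if_neg hr, h.l0 r hr, max_self]

theorem sum_rF {u v p a l : ℕ → ℕ} (h : Ok u v p a l) :
    ∑ r ∈ range 2048, rF u v p a l r = ∑ z ∈ range 11, rF u v p a l (2 ^ z) := by
  rw [← sum_P1]
  refine (sum_subset (fun r hr => mem_range.2 (P1_lt hr)) fun r _ hr => rF_zero h hr).symm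

/-- digit sum modulo 255 -/
theorem pk_mod255 (N : ℕ) (w : ℕ → ℕ) : pk 8 N w % 255 ≤ ∑ r ∈ range N, w r := by
  have h : pk 8 N w ≡ ∑ r ∈ range N, w r [MOD 255] := by
    unfold pk
    induction N with
    | zero => exact Nat.ModEq.refl _
    | succ N ih =>
      rw [sum_range_succ, sum_range_succ]
      refine ih.add ?_
      have h1 : 2 ^ (8 * N) ≡ 1 [MOD 255] := by
        rw [pow_mul]
        exact (Nat.ModEq.pow N (show (2 : ℕ) ^ 8 ≡ 1 [MOD 255] by decide)).trans (by rw [one_pow])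
      simpa using h1.mul_left (w N)
  have h2 : pk 8 N w % 255 = (∑ r ∈ range N, w r) % 255 := h
  rw [h2]
  exact Nat.mod_le _ _

/-- SCALAR KILL TEST -/
def kill1 (C2 M2 k2 k5 k8 O2 C1 M1 H Ev T U V P A Ls Lw : ℕ) : Bool :=
  Nat.ble T (resRun C2 M2 k2 k5 k8 O2 C1 M1 H Ev U V P A Ls Lw % 255)

theorem cube_one (w : ℕ → ℕ → ℕ) : cube 1 w = pk 8 2048 (w 0) := by
  unfold cube
  rw [pk_succ, pk_zero, mul_zero, pow_zero, mul_one, zero_add]

/-- scalar soundness: the test fails on valid data of an odd cover with at most 157 blocks -/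
theorem kill1_sound {B : Finset (Finset (Fin 13))} (hB : OddCover B) (h157 : B.card ≤ 157)
    {u v p a l : ℕ → ℕ} (hok : Ok u v p a l) (h : Sound B u v p a l) {T : ℕ}
    (hT : 88 < T + (MM B 11 + MM B 12)) :
    kill1 kC2 (kM2 1) (kT 1 2) (kT 1 5) (kT 1 8) (kO2 1) kC1 (kM1 1) (kH 1) (kEv 1) T
      (pk 8 2048 u) (pk 8 2048 v) (pk 8 2048 p) (pk 8 2048 a)
      (pk 8 2048 (fun r => onS P1 128 r - l r)) (pk 8 2048 l) = false := by
  unfold kill1
  have h1 := resRun_eq (n := 1) (u := fun _ => u) (v := fun _ => v) (p := fun _ => p)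
    (a := fun _ => a) (l := fun _ => l) (fun _ _ => hok)
  rw [cube_one, cube_one, cube_one, cube_one, cube_one, cube_one, cube_one] at h1
  rw [h1]
  have h2 := pk_mod255 2048 (rF u v p a l)
  rw [sum_rF hok] at h2
  have h3 := total_le hB h157 h
  by_contra hc
  rw [Bool.not_eq_false, Nat.ble_eq] at hc
  omega

/-! ### lanes -/

/-- totals of the lanes: bit 0 of lane `i` of the result is set iff the test kills lane `i` -/
def killN (C2 M2 k2 k5 k8 O2 C1 M1 H Ev M0 O0 Tw U V P A Ls Lw : ℕ) : ℕ :=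
  ((((resRun C2 M2 k2 k5 k8 O2 C1 M1 H Ev U V P A Ls Lw * C1) >>> (8 * 1024)) &&& M0) + Tw) >>> 8
    &&& O0

/-- the mask of the totals and the ones -/
def kM0 (n : ℕ) : ℕ := 255 * rep 32768 n
def kO0 (n : ℕ) : ℕ := 1 * rep 32768 n

theorem few_pairs {j : ℕ} (hj : j < 1024) :
    (P1.filter (fun p => 1024 ≤ j + p ∧ j + p - 1024 ∈ P1)).card ≤ 1 := by
  have h : ∀ j ∈ List.range 1024, (P1.filter (fun p => 1024 ≤ j + p ∧ j + p - 1024 ∈ P1)).card ≤ 1 := by
    decide +kernel
  exact h j (List.mem_range.2 hj)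

/-- total of one lane: low 8 bits of the digit sum -/
theorem lane_total {w : ℕ → ℕ} (hw : ∀ r, w r ≤ 127) (h0 : ∀ r, r ∉ P1 → w r = 0) :
    ((pk 8 2048 w * corrC 1024 P1) >>> (8 * 1024)) &&& 255 = (∑ z ∈ range 11, w (2 ^ z)) % 256 := by
  rw [corr_lane (by norm_num) (fun p hp => P1_le hp)]
  set c : ℕ → ℕ := fun j => ∑ p ∈ P1, if 1024 - p ≤ j then KillW.ext 2048 w (j - (1024 - p)) else 0
    with hc
  have hb : ∀ j < 1024, c j < 2 ^ 8 := by
    intro j hj
    have h1 : c j ≤ ∑ p ∈ P1, if (1024 ≤ j + p ∧ j + p - 1024 ∈ P1) then 127 else 0 := by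
      refine sum_le_sum fun p hp => ?_
      have hp1 := P1_le hp
      by_cases h2 : 1024 - p ≤ j
      · rw [if_pos h2]
        have e : j - (1024 - p) = j + p - 1024 := by omega
        rw [e]
        unfold KillW.ext
        by_cases h3 : j + p - 1024 ∈ P1
        · rw [if_pos (P1_lt h3), if_pos ⟨by omega, h3⟩]
          exact hw _
        · rw [h0 _ h3]
          split_ifs <;> exact Nat.zero_le _
      · rw [if_neg h2]
        exact Nat.zero_le _
    rw [← sum_filter, sum_const, smul_eq_mul] at h1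
    have h4 := Nat.mul_le_mul_right 127 (few_pairs hj)
    have h5 : c j ≤ 127 := by omega
    omega
  rw [show (4096 : ℕ) = 1024 + 3072 by norm_num, pk_shiftRight _ hb,
    show (3072 : ℕ) = 3071 + 1 by norm_num, pk_cons, show (255 : ℕ) = 2 ^ 8 - 1 by norm_num,
    Nat.and_two_pow_sub_one_eq_mod, Nat.mul_add_mod]
  have h6 : c (1024 + 0) = ∑ z ∈ range 11, w (2 ^ z) := by
    rw [← sum_P1 w, hc]
    refine sum_congr rfl fun p hp => ?_
    have hp1 := P1_le hp
    have hp2 := P1_lt hp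
    have e : 1024 + 0 - (1024 - p) = p := by omega
    rw [if_pos (by omega), e]
    exact if_pos hp2
  rw [h6]
  norm_num

theorem rF_le127 {u v p a l : ℕ → ℕ} (h : Ok u v p a l) (r : ℕ) : rF u v p a l r ≤ 127 :=
  max_le (h.l1 r) (xF_lt h _ r)

/-- THE LANE PROGRAM IS CORRECT -/
theorem killN_eq {n : ℕ} {u v p a l : ℕ → ℕ → ℕ} (h : ∀ i < n, Ok (u i) (v i) (p i) (a i) (l i))
    {T : ℕ → ℕ} (hT : ∀ i, T i ≤ 256) :
    killN kC2 (kM2 n) (kT n 2) (kT n 5) (kT n 8) (kO2 n) kC1 (kM1 n) (kH n) (kEv n) (kM0 n) (kO0 n)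
      (pk 32768 n (fun i => 256 - T i))
      (cube n u) (cube n v) (cube n p) (cube n a) (cube n (fun i r => onS P1 128 r - l i r))
      (cube n l) = pk 32768 n (fun i => if T i ≤
        (∑ z ∈ range 11, rF (u i) (v i) (p i) (a i) (l i) (2 ^ z)) % 256 then 1 else 0) := by
  unfold killN
  rw [resRun_eq h]
  have h1 : ((cube n (fun i => rF (u i) (v i) (p i) (a i) (l i)) * kC1) >>> (8 * 1024)) &&& kM0 n =
      pk 32768 n (fun i => (∑ z ∈ range 11, rF (u i) (v i) (p i) (a i) (l i) (2 ^ z)) % 256) := by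
    unfold cube kM0 kC1
    rw [mul_rep (by norm_num), mul_comm, mul_pk, lane_shr_land (by norm_num)]
    · refine pk_congr fun i hi => ?_
      rw [mul_comm]
      exact lane_total (fun r => rF_le127 (h i hi) r) (fun r hr => rF_zero (h i hi) hr)
    · intro i hi
      have h2 : pk 8 2048 (rF (u i) (v i) (p i) (a i) (l i)) < 2 ^ (8 * 2048) :=
        pk_lt fun r _ => by have := rF_le127 (h i hi) r; omega
      have h3 : corrC 1024 P1 ≤ 2 ^ (8 * 1024) := by decide +kernel
      calc corrC 1024 P1 * pk 8 2048 (rF (u i) (v i) (p i) (a i) (l i))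
          < 2 ^ (8 * 1024) * 2 ^ (8 * 2048) :=
            Nat.mul_lt_mul_of_le_of_lt h3 h2 (Nat.two_pow_pos _)
        _ = 2 ^ (8 * 1024 + 8 * 2048) := (pow_add 2 _ _).symm
        _ ≤ 2 ^ 32768 := Nat.pow_le_pow_right (by norm_num) (by norm_num)
    · intro i _
      calc (255 : ℕ) < 2 ^ 8 := by norm_num
        _ ≤ 2 ^ (32768 - 8 * 1024) := Nat.pow_le_pow_right (by norm_num) (by norm_num)
  rw [h1, pk_add]
  unfold kO0
  rw [mul_rep (by norm_num), lane_shr_land (by norm_num)]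
  · refine pk_congr fun i _ => ?_
    rw [Nat.shiftRight_eq_div_pow, Nat.and_one_is_mod]
    have h4 := hT i
    have h5 : (∑ z ∈ range 11, rF (u i) (v i) (p i) (a i) (l i) (2 ^ z)) % 256 < 256 :=
      Nat.mod_lt _ (by norm_num)
    by_cases h6 : T i ≤ (∑ z ∈ range 11, rF (u i) (v i) (p i) (a i) (l i) (2 ^ z)) % 256
    · rw [if_pos h6]
      omega
    · rw [if_neg h6]
      omega
  · intro i _
    have h5 : (∑ z ∈ range 11, rF (u i) (v i) (p i) (a i) (l i) (2 ^ z)) % 256 < 256 :=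
      Nat.mod_lt _ (by norm_num)
    calc (∑ z ∈ range 11, rF (u i) (v i) (p i) (a i) (l i) (2 ^ z)) % 256 + (256 - T i)
        < 2 ^ 10 := by omega
      _ ≤ 2 ^ 32768 := Nat.pow_le_pow_right (by norm_num) (by norm_num)
  · intro i _
    exact Nat.one_lt_two_pow (by norm_num)

/-- lane soundness: the bit of a lane with valid data is zero -/
theorem killN_sound {B : Finset (Finset (Fin 13))} (hB : OddCover B) (h157 : B.card ≤ 157)
    {n : ℕ} {u v p a l : ℕ → ℕ → ℕ} (h : ∀ i < n, Ok (u i) (v i) (p i) (a i) (l i))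
    {T : ℕ → ℕ} (hT : ∀ i, T i ≤ 256) {i : ℕ} (hi : i < n)
    (hs : Sound B (u i) (v i) (p i) (a i) (l i))
    (hTi : 88 < T i + (MM B 11 + MM B 12)) :
    fld 32768 (killN kC2 (kM2 n) (kT n 2) (kT n 5) (kT n 8) (kO2 n) kC1 (kM1 n) (kH n) (kEv n)
      (kM0 n) (kO0 n) (pk 32768 n (fun i => 256 - T i))
      (cube n u) (cube n v) (cube n p) (cube n a) (cube n (fun i r => onS P1 128 r - l i r))
      (cube n l)) i = 0 := by
  rw [killN_eq h hT, fld_pk _ hi]
  · have h1 := total_le hB h157 hs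
    have h2 := Nat.mod_le (∑ z ∈ range 11, rF (u i) (v i) (p i) (a i) (l i) (2 ^ z)) 256
    exact if_neg (by omega)
  · intro j _
    split_ifs
    · exact Nat.one_lt_two_pow (by norm_num)
    · exact Nat.two_pow_pos _

end Pool.Agent.Helper97.CV.Kill11
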