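import Pool.Agent.Helper97.CV.KillW

/-!
TH-Y': families of subsets of `{0, .., 10}` in cube format, `n` lanes.

Field `r < 2048` (8 bits) of a lane belongs to the subset with mask `r`; the stride of a lane is
`32768 = 8 * 4096` bits. One multiplication computes all sums `∑ p ∈ Ps, w (r + p)`.
-/

set_option autoImplicit false
set_option exponentiation.threshold 40000

namespace Pool.Agent.Helper97.CV.Cube11

open Finset Pool.Agent.Helper63.SIMD Pool.Agent.Helper97.CV.KillW

/-- `n` lanes of 2048 fields of 8 bits -/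
def cube (n : ℕ) (w : ℕ → ℕ → ℕ) : ℕ := pk 32768 n (fun i => pk 8 2048 (w i))

theorem cube_congr {n : ℕ} {v w : ℕ → ℕ → ℕ} (h : ∀ i < n, ∀ r < 2048, v i r = w i r) :
    cube n v = cube n w := by
  unfold cube
  exact pk_congr fun i hi => pk_congr fun r hr => h i hi r hr

theorem pow_big : (2 : ℕ) ^ (8 * 2048) ≤ 2 ^ 32768 := Nat.pow_le_pow_right (by norm_num) (by norm_num)

theorem lane_lt {w : ℕ → ℕ} (h : ∀ r < 2048, w r < 2 ^ 8) : pk 8 2048 w < 2 ^ 32768 :=
  lt_of_lt_of_le (pk_lt h) pow_big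

theorem cube_const {n : ℕ} (c : ℕ → ℕ) :
    pk 8 2048 c * rep 32768 n = cube n (fun _ => c) := by
  unfold cube
  exact mul_rep (by norm_num) _

theorem cube_add {n : ℕ} {v w : ℕ → ℕ → ℕ} :
    cube n v + cube n w = cube n (fun i r => v i r + w i r) := by
  unfold cube
  rw [pk_add]
  exact pk_congr fun i _ => pk_add

theorem cube_sub {n : ℕ} {v w : ℕ → ℕ → ℕ} (h : ∀ i < n, ∀ r < 2048, w i r ≤ v i r) :
    cube n v - cube n w = cube n (fun i r => v i r - w i r) := by
  unfold cube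
  rw [pk_sub]
  · exact pk_congr fun i hi => pk_sub (h i hi)
  · intro i hi
    unfold pk
    exact sum_le_sum fun r hr => Nat.mul_le_mul_right _ (h i hi r (mem_range.1 hr))

theorem cube_land {n : ℕ} {v w : ℕ → ℕ → ℕ} (hv : ∀ i < n, ∀ r < 2048, v i r < 2 ^ 8)
    (hw : ∀ i < n, ∀ r < 2048, w i r < 2 ^ 8) :
    cube n v &&& cube n w = cube n (fun i r => v i r &&& w i r) := by
  unfold cube
  rw [pk_land (fun i hi => lane_lt (hv i hi)) (fun i hi => lane_lt (hw i hi))]
  exact pk_congr fun i hi => pk_land (hv i hi) (hw i hi)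

theorem cube_xor {n : ℕ} {v w : ℕ → ℕ → ℕ} (hv : ∀ i < n, ∀ r < 2048, v i r < 2 ^ 8)
    (hw : ∀ i < n, ∀ r < 2048, w i r < 2 ^ 8) :
    cube n v ^^^ cube n w = cube n (fun i r => v i r ^^^ w i r) := by
  unfold cube
  rw [pk_xor (fun i hi => lane_lt (hv i hi)) (fun i hi => lane_lt (hw i hi))]
  exact pk_congr fun i hi => pk_xor (hv i hi) (hw i hi)

/-- shift right and mask, lane by lane -/
theorem lane_shr_land {S n k : ℕ} (hk : k ≤ S) {a m : ℕ → ℕ} (ha : ∀ i < n, a i < 2 ^ S)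
    (hm : ∀ i < n, m i < 2 ^ (S - k)) :
    (pk S n a >>> k) &&& pk S n m = pk S n (fun i => (a i >>> k) &&& m i) := by
  have hp : 2 ^ (S - k) ≤ 2 ^ S := Nat.pow_le_pow_right (by norm_num) (Nat.sub_le _ _)
  have hm' : ∀ i < n, m i < 2 ^ S := fun i hi => lt_of_lt_of_le (hm i hi) hp
  have h1 : pk S n m = pk S n (fun _ => 2 ^ (S - k) - 1) &&& pk S n m := by
    rw [pk_land (fun i _ => by have := Nat.two_pow_pos (S - k); omega) hm']
    refine pk_congr fun i hi => ?_
    rw [Nat.land_comm, Nat.and_two_pow_sub_one_eq_mod, Nat.mod_eq_of_lt (hm i hi)]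
  rw [h1, ← Nat.land_assoc, pk_shr_land hk a ha, pk_land _ hm']
  · refine pk_congr fun i _ => ?_
    rw [Nat.shiftRight_eq_div_pow]
  · intro i hi
    exact lt_of_le_of_lt (Nat.div_le_self _ _) (ha i hi)

/-- shift all fields by 7 and keep one bit in the fields of `o` -/
theorem cube_shr7 {n : ℕ} {v : ℕ → ℕ → ℕ} {o : ℕ → ℕ} (hv : ∀ i < n, ∀ r < 2048, v i r < 2 ^ 8)
    (ho : ∀ r < 2048, o r ≤ 1) :
    (cube n v >>> 7) &&& cube n (fun _ => o) = cube n (fun i r => (v i r / 2 ^ 7) &&& o r) := by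
  unfold cube
  have ho2 : pk 8 2048 o < 2 ^ (32768 - 7) := by
    refine lt_of_lt_of_le (pk_lt (W := 8) (N := 2048) fun r hr => ?_)
      (Nat.pow_le_pow_right (by norm_num) (by norm_num))
    have := ho r hr
    omega
  rw [lane_shr_land (by norm_num) (fun i hi => lane_lt (hv i hi)) (fun _ _ => ho2)]
  refine pk_congr fun i hi => ?_
  have ho3 : ∀ r < 2048, o r < 2 ^ 8 := fun r hr => by have := ho r hr; omega
  have h1 : pk 8 2048 o = pk 8 2048 (fun _ => 2 ^ (8 - 7) - 1) &&& pk 8 2048 o := by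
    rw [pk_land (fun _ _ => by norm_num) ho3]
    refine pk_congr fun r hr => ?_
    have := ho r hr
    interval_cases (o r) <;> rfl
  rw [h1, ← Nat.land_assoc, pk_shr_land (by norm_num) _ (hv i hi), pk_land _ ho3]
  intro r hr
  exact lt_of_le_of_lt (Nat.div_le_self _ _) (hv i hi r hr)

/-- the constant of the correlation with the index set `Ps` -/
def corrC (E : ℕ) (Ps : Finset ℕ) : ℕ := ∑ p ∈ Ps, 2 ^ (8 * (E - p))

/-- the correlation of one lane before masking -/
theorem corr_lane {E : ℕ} {Ps : Finset ℕ} (hE : E ≤ 2047) (hP : ∀ p ∈ Ps, p ≤ E) (w : ℕ → ℕ) :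
    pk 8 2048 w * corrC E Ps =
      pk 8 4096 (fun j => ∑ p ∈ Ps, if E - p ≤ j then KillW.ext 2048 w (j - (E - p)) else 0) := by
  unfold corrC
  rw [mul_sum]
  have h1 : ∀ p ∈ Ps, pk 8 2048 w * 2 ^ (8 * (E - p)) =
      pk 8 4096 (fun j => if E - p ≤ j then KillW.ext 2048 w (j - (E - p)) else 0) :=
    fun p _ => pk_shiftLeft (by omega) w
  rw [sum_congr rfl h1]
  unfold pk
  rw [sum_comm]
  refine sum_congr rfl fun j _ => ?_
  rw [sum_mul]

/-- CORRELATION: one multiplication, one shift, one mask -/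
theorem cube_corr {n E : ℕ} {Ps Rs : Finset ℕ} (hE : E ≤ 2047) (hP : ∀ p ∈ Ps, p ≤ E)
    {w : ℕ → ℕ → ℕ} {c : ℕ} (hw : ∀ i < n, ∀ r < 2048, w i r ≤ c) (hc : Ps.card * c < 2 ^ 8)
    (hRs : ∀ r ∈ Rs, r < 2048) :
    ((cube n w * corrC E Ps) >>> (8 * E)) &&& (pk 8 2048 (fun r => if r ∈ Rs then 255 else 0) *
        rep 32768 n) =
      cube n (fun i r => if r ∈ Rs then ∑ p ∈ Ps, KillW.ext 2048 (w i) (r + p) else 0) := by
  have hb : ∀ i < n, ∀ j,
      (∑ p ∈ Ps, if E - p ≤ j then KillW.ext 2048 (w i) (j - (E - p)) else 0) < 2 ^ 8 := by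
    intro i hi j
    refine lt_of_le_of_lt ?_ hc
    calc (∑ p ∈ Ps, if E - p ≤ j then KillW.ext 2048 (w i) (j - (E - p)) else 0) ≤ ∑ _p ∈ Ps, c := by
          refine sum_le_sum fun p _ => ?_
          unfold KillW.ext
          split_ifs with h1 h2
          · exact hw i hi _ h2
          · exact Nat.zero_le _
          · exact Nat.zero_le _
      _ = Ps.card * c := by rw [sum_const, smul_eq_mul]
  have hm : ∀ r < 2048, (if r ∈ Rs then 255 else 0) < 2 ^ 8 := by
    intro r _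
    split_ifs <;> norm_num
  rw [cube_const]
  unfold cube
  rw [mul_comm, mul_pk]
  have h1 : ∀ i < n, corrC E Ps * pk 8 2048 (w i) =
      pk 8 4096 (fun j => ∑ p ∈ Ps, if E - p ≤ j then KillW.ext 2048 (w i) (j - (E - p)) else 0) :=
    fun i _ => by rw [mul_comm, corr_lane hE hP]
  rw [pk_congr h1, lane_shr_land (by omega)]
  · refine pk_congr fun i hi => ?_
    obtain ⟨e, he⟩ : ∃ e, 4096 = E + (2048 + e) := ⟨2048 - E, by omega⟩
    rw [he, pk_shiftRight _ (fun j _ => hb i hi j), pk_append]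
    have h2 : (pk 8 2048 (fun j => ∑ p ∈ Ps,
        if E - p ≤ E + j then KillW.ext 2048 (w i) (E + j - (E - p)) else 0) +
        2 ^ (8 * 2048) * pk 8 e (fun k => ∑ p ∈ Ps,
        if E - p ≤ E + (2048 + k) then KillW.ext 2048 (w i) (E + (2048 + k) - (E - p)) else 0)) &&&
        pk 8 2048 (fun r => if r ∈ Rs then 255 else 0) =
        pk 8 2048 (fun j => ∑ p ∈ Ps,
        if E - p ≤ E + j then KillW.ext 2048 (w i) (E + j - (E - p)) else 0) &&&
        pk 8 2048 (fun r => if r ∈ Rs then 255 else 0) := by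
      have h3 := land_cons (W := 8 * 2048)
        (x := pk 8 e (fun k => ∑ p ∈ Ps,
          if E - p ≤ E + (2048 + k) then KillW.ext 2048 (w i) (E + (2048 + k) - (E - p)) else 0))
        (y := 0) (pk_lt fun j _ => hb i hi (E + j)) (pk_lt hm)
      rw [mul_zero, zero_add, Nat.and_zero, mul_zero, zero_add] at h3
      rw [← h3, add_comm]
    rw [h2, pk_land (fun j _ => hb i hi (E + j)) hm]
    refine pk_congr fun r hr => ?_
    by_cases h4 : r ∈ Rs
    · simp only [if_pos h4]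
      rw [show (255 : ℕ) = 2 ^ 8 - 1 by norm_num, Nat.and_two_pow_sub_one_eq_mod,
        Nat.mod_eq_of_lt (hb i hi (E + r))]
      refine sum_congr rfl fun p hp => ?_
      have h5 := hP p hp
      rw [if_pos (by omega)]
      congr 1
      omega
    · simp only [if_neg h4, Nat.and_zero]
  · intro i hi
    refine lt_of_lt_of_le (pk_lt fun j _ => hb i hi j) ?_
    exact Nat.pow_le_pow_right (by norm_num) (by norm_num)
  · intro i _
    refine lt_of_lt_of_le (pk_lt hm) ?_
    exact Nat.pow_le_pow_right (by norm_num) (by omega)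

end Pool.Agent.Helper97.CV.Cube11
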