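import Pool.Agent.Helper97.CV.Cube
import Pool.Agent.Helper97.CV.Count
import Pool.Agent.Helper79.CV.Colex

/-!
TH-Y': the kill test in the frame `K = {10, 11, 12}`, outside points `0, .., 9`, cube format.

`resRun` computes, for every lane, the vector `max (l z) (even (A z + sum over v of (f z v + 1) / 3))`
in the fields `2 ^ z`, where `f` is `P` plus the number of common quads of `U` and `V`.
-/

set_option autoImplicit false
set_option exponentiation.threshold 20000

namespace Pool.Agent.Helper97.CV.Kill10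

open Finset Pool.Agent.Helper63.SIMD Pool.Agent.Helper97.CV.KillW Pool.Agent.Helper97.CV.Cube
open Pool.Agent.Helper79.CV (L mem_L lt_of_mem_L)

/-- masks of the pairs of outside points -/
def P2 : Finset ℕ := (L 10 2).toFinset

/-- masks of the outside points -/
def P1 : Finset ℕ := (L 10 1).toFinset

theorem P2_card : P2.card = 45 := by decide +kernel

theorem P1_card : P1.card = 10 := by decide +kernel

theorem P2_lt {r : ℕ} (h : r ∈ P2) : r < 1024 := lt_of_mem_L (List.mem_toFinset.1 h)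

theorem P1_lt {r : ℕ} (h : r ∈ P1) : r < 1024 := lt_of_mem_L (List.mem_toFinset.1 h)

theorem P2_le {r : ℕ} (h : r ∈ P2) : r ≤ 1023 := by have := P2_lt h; omega

theorem P1_le {r : ℕ} (h : r ∈ P1) : r ≤ 512 := by
  have h1 : ∀ s ∈ L 10 1, s ≤ 512 := by decide +kernel
  exact h1 r (List.mem_toFinset.1 h)

/-- field constant on `Rs` -/
def onS (Rs : Finset ℕ) (c : ℕ) (r : ℕ) : ℕ := if r ∈ Rs then c else 0

/-- the constants of the program, for `n` lanes -/
def kC2 : ℕ := corrC 1023 P2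
def kC1 : ℕ := corrC 512 P1
def kM2 (n : ℕ) : ℕ := pk 8 1024 (onS P2 255) * rep 16384 n
def kM1 (n : ℕ) : ℕ := pk 8 1024 (onS P1 255) * rep 16384 n
def kT (n k : ℕ) : ℕ := pk 8 1024 (onS P2 (128 - k)) * rep 16384 n
def kO2 (n : ℕ) : ℕ := pk 8 1024 (onS P2 1) * rep 16384 n
def kH (n : ℕ) : ℕ := pk 8 1024 (onS P1 128) * rep 16384 n
def kEv (n : ℕ) : ℕ := pk 8 1024 (onS P1 254) * rep 16384 n

/-- the program: constants, then data `U V P A Ls Lw` -/
def resRun (C2 M2 k2 k5 k8 O2 C1 M1 H Ev U V P A Ls Lw : ℕ) : ℕ :=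
  (fun f => (fun X => (fun d => ((X ^^^ Lw) &&& (d - (d >>> 7))) ^^^ Lw) ((X + Ls) &&& H))
    ((((((((f + k2) >>> 7) &&& O2) + (((f + k5) >>> 7) &&& O2) + (((f + k8) >>> 7) &&& O2)) * C1)
      >>> (8 * 512) &&& M1) + A) &&& Ev))
    ((((U &&& V) * C2) >>> (8 * 1023) &&& M2) + P)

/-- pair counters of one lane -/
def fF (u v p : ℕ → ℕ) (r : ℕ) : ℕ :=
  (if r ∈ P2 then ∑ q ∈ P2, KillW.ext 1024 (fun s => u s &&& v s) (r + q) else 0) + p r

/-- lower bounds of the pair excesses of one lane, capped at 3 -/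
def tF (f : ℕ → ℕ) (r : ℕ) : ℕ :=
  if r ∈ P2 then ((if 2 ≤ f r then 1 else 0) + (if 5 ≤ f r then 1 else 0)) +
    (if 8 ≤ f r then 1 else 0) else 0

/-- lower bounds of the point excesses of one lane; `a` contains the offset plus one -/
def xF (t a : ℕ → ℕ) (r : ℕ) : ℕ :=
  if r ∈ P1 then 2 * ((∑ q ∈ P1, KillW.ext 1024 t (r + q) + a r) / 2) else 0

/-- the result of one lane -/
def rF (u v p a l : ℕ → ℕ) (r : ℕ) : ℕ := max (l r) (xF (tF (fF u v p)) a r)

theorem thr {f k : ℕ} (hf : f ≤ 127) (hk : k ≤ 128) (hk1 : 1 ≤ k) :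
    ((f + (128 - k)) / 2 ^ 7) &&& 1 = if k ≤ f then 1 else 0 := by
  rw [Nat.and_one_is_mod]
  split_ifs with h
  · omega
  · omega

theorem land254 {x : ℕ} (hx : x < 256) : x &&& 254 = 2 * (x / 2) := by
  have h := land_cons (W := 1) (x := x / 2) (y := 127) (p := x % 2) (q := 0)
    (by omega) (by norm_num)
  have e1 : 2 ^ 1 * (x / 2) + x % 2 = x := by omega
  have e2 : 2 ^ 1 * 127 + 0 = 254 := by norm_num
  rw [e1, e2, Nat.and_zero, show (127 : ℕ) = 2 ^ 7 - 1 by norm_num,
    Nat.and_two_pow_sub_one_eq_mod, Nat.mod_eq_of_lt (show x / 2 < 2 ^ 7 by omega)] at h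
  omega

theorem land128 {x : ℕ} (hx : x < 256) : x &&& 128 = if 128 ≤ x then 128 else 0 := by
  have h := land_cons (W := 7) (x := x / 2 ^ 7) (y := 1) (p := x % 2 ^ 7) (q := 0)
    (Nat.mod_lt _ (Nat.two_pow_pos 7)) (by norm_num)
  have e1 : 2 ^ 7 * (x / 2 ^ 7) + x % 2 ^ 7 = x := Nat.div_add_mod x (2 ^ 7)
  have e2 : 2 ^ 7 * 1 + 0 = 128 := by norm_num
  rw [e1, e2, Nat.and_zero, Nat.and_one_is_mod] at h
  rw [h]
  split_ifs with h1
  · omega
  · omega

theorem land127 {x : ℕ} (hx : x < 128) : x &&& 127 = x := by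
  rw [show (127 : ℕ) = 2 ^ 7 - 1 by norm_num, Nat.and_two_pow_sub_one_eq_mod]
  exact Nat.mod_eq_of_lt (by omega)

theorem sum_ext_le {Ps : Finset ℕ} {w : ℕ → ℕ} {c r : ℕ} (hw : ∀ s, w s ≤ c) :
    ∑ q ∈ Ps, KillW.ext 1024 w (r + q) ≤ Ps.card * c := by
  calc ∑ q ∈ Ps, KillW.ext 1024 w (r + q) ≤ ∑ _q ∈ Ps, c := by
        refine sum_le_sum fun q _ => ?_
        unfold KillW.ext
        split_ifs
        · exact hw _
        · exact Nat.zero_le _
    _ = Ps.card * c := by rw [sum_const, smul_eq_mul]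

/-- the bounds on the data of one lane -/
structure Ok (u v p a l : ℕ → ℕ) : Prop where
  u1 : ∀ r, u r ≤ 1
  v1 : ∀ r, v r ≤ 1
  p1 : ∀ r, p r ≤ 82
  a1 : ∀ r, a r ≤ 97
  l1 : ∀ r, l r ≤ 127
  l0 : ∀ r, r ∉ P1 → l r = 0

section lane

variable {u v p a l : ℕ → ℕ}

theorem fF_le (h : Ok u v p a l) (r : ℕ) : fF u v p r ≤ 127 := by
  unfold fF
  have h1 : ∑ q ∈ P2, KillW.ext 1024 (fun s => u s &&& v s) (r + q) ≤ P2.card * 1 :=
    sum_ext_le fun s => Nat.and_le_left.trans (h.u1 s)
  rw [P2_card] at h1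
  have h2 := h.p1 r
  split_ifs
  · omega
  · omega

theorem tF_le (f : ℕ → ℕ) (r : ℕ) : tF f r ≤ 3 := by
  unfold tF
  split_ifs <;> omega

theorem xF_lt (h : Ok u v p a l) (f : ℕ → ℕ) (r : ℕ) : xF (tF f) a r ≤ 127 := by
  unfold xF
  have h1 : ∑ q ∈ P1, KillW.ext 1024 (tF f) (r + q) ≤ P1.card * 3 := sum_ext_le fun s => tF_le f s
  rw [P1_card] at h1
  have h2 := h.a1 r
  split_ifs
  · omega
  · omega

end lane

/-- THE PROGRAM IS CORRECT -/
theorem resRun_eq {n : ℕ} {u v p a l : ℕ → ℕ → ℕ} (h : ∀ i < n, Ok (u i) (v i) (p i) (a i) (l i)) :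
    resRun kC2 (kM2 n) (kT n 2) (kT n 5) (kT n 8) (kO2 n) kC1 (kM1 n) (kH n) (kEv n)
      (cube n u) (cube n v) (cube n p) (cube n a) (cube n (fun i r => onS P1 128 r - l i r))
      (cube n l) = cube n (fun i => rF (u i) (v i) (p i) (a i) (l i)) := by
  have hf : ((((cube n u &&& cube n v) * kC2) >>> (8 * 1023)) &&& kM2 n) + cube n p =
      cube n (fun i => fF (u i) (v i) (p i)) := by
    rw [cube_land (fun i hi r _ => by have := (h i hi).u1 r; omega)
      (fun i hi r _ => by have := (h i hi).v1 r; omega)]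
    unfold kC2 kM2 onS
    rw [cube_corr (c := 1) (by norm_num) (fun q hq => P2_le hq)
      (fun i hi r _ => Nat.and_le_left.trans ((h i hi).u1 r)) (by rw [P2_card]; norm_num)
      (fun q hq => P2_lt hq), cube_add]
    rfl
  have ht : ∀ k, k = 2 ∨ k = 5 ∨ k = 8 →
      ((cube n (fun i => fF (u i) (v i) (p i)) + kT n k) >>> 7) &&& kO2 n =
      cube n (fun i r => if r ∈ P2 then (if k ≤ fF (u i) (v i) (p i) r then 1 else 0) else 0) := by
    intro k hk
    unfold kT kO2
    rw [cube_const, cube_const, cube_add, cube_shr7]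
    · refine cube_congr fun i hi r _ => ?_
      unfold onS
      by_cases hr : r ∈ P2
      · simp only [if_pos hr]
        exact thr (fF_le (h i hi) r) (by omega) (by omega)
      · simp only [if_neg hr, Nat.and_zero]
    · intro i hi r _
      have h1 := fF_le (h i hi) r
      show fF (u i) (v i) (p i) r + onS P2 (128 - k) r < 2 ^ 8
      unfold onS
      split_ifs <;> omega
    · intro r _
      unfold onS
      split_ifs <;> omega
  have hX : ∀ t : ℕ → ℕ → ℕ, (∀ i r, t i r ≤ 3) →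
      ((((cube n t * kC1) >>> (8 * 512)) &&& kM1 n) + cube n a) &&& kEv n =
      cube n (fun i => xF (t i) (a i)) := by
    intro t ht3
    unfold kC1 kM1 kEv
    rw [cube_const (onS P1 254)]
    have hM : onS P1 255 = fun r => if r ∈ P1 then 255 else 0 := rfl
    rw [hM, cube_corr (c := 3) (by norm_num) (fun q hq => P1_le hq) (fun i _ r _ => ht3 i r)
      (by rw [P1_card]; norm_num) (fun q hq => P1_lt hq), cube_add]
    have hs : ∀ i < n, ∀ r, (if r ∈ P1 then ∑ q ∈ P1, KillW.ext 1024 (t i) (r + q) else 0) + a i r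
        ≤ 127 := by
      intro i hi r
      have h1 : ∑ q ∈ P1, KillW.ext 1024 (t i) (r + q) ≤ P1.card * 3 := sum_ext_le fun s => ht3 i s
      rw [P1_card] at h1
      have h2 := (h i hi).a1 r
      split_ifs <;> omega
    rw [cube_land]
    · refine cube_congr fun i hi r _ => ?_
      unfold xF onS
      by_cases hr : r ∈ P1
      · have h3 := hs i hi r
        simp only [if_pos hr] at h3 ⊢
        exact land254 (by omega)
      · simp only [if_neg hr, Nat.and_zero]
    · intro i hi r _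
      have := hs i hi r
      show _ < 2 ^ 8
      omega
    · intro i _ r _
      show onS P1 254 r < 2 ^ 8
      unfold onS
      split_ifs <;> norm_num
  unfold resRun
  simp only []
  rw [hf, ht 2 (by omega), ht 5 (by omega), ht 8 (by omega), cube_add, cube_add]
  have e1 : cube n (fun i r =>
      ((if r ∈ P2 then (if 2 ≤ fF (u i) (v i) (p i) r then 1 else 0) else 0) +
      (if r ∈ P2 then (if 5 ≤ fF (u i) (v i) (p i) r then 1 else 0) else 0)) +
      (if r ∈ P2 then (if 8 ≤ fF (u i) (v i) (p i) r then 1 else 0) else 0)) =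
      cube n (fun i => tF (fF (u i) (v i) (p i))) := by
    refine cube_congr fun i _ r _ => ?_
    unfold tF
    by_cases hr : r ∈ P2
    · simp only [if_pos hr]
    · simp only [if_neg hr]
  rw [e1, hX _ (fun i r => tF_le _ r)]
  have hx : ∀ i < n, ∀ r, xF (tF (fF (u i) (v i) (p i))) (a i) r ≤ 127 :=
    fun i hi r => xF_lt (h i hi) _ r
  have e2 : (cube n (fun i => xF (tF (fF (u i) (v i) (p i))) (a i)) +
      cube n (fun i r => onS P1 128 r - l i r)) &&& kH n =
      cube n (fun i r => 2 ^ 7 * (if r ∈ P1 ∧ l i r ≤ xF (tF (fF (u i) (v i) (p i))) (a i) r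
        then 1 else 0)) := by
    unfold kH
    rw [cube_const, cube_add, cube_land]
    · refine cube_congr fun i hi r _ => ?_
      have h1 := hx i hi r
      have h2 := (h i hi).l1 r
      unfold onS
      by_cases hr : r ∈ P1
      · simp only [if_pos hr]
        rw [land128 (by omega)]
        by_cases h3 : l i r ≤ xF (tF (fF (u i) (v i) (p i))) (a i) r
        · rw [if_pos (by omega), if_pos ⟨hr, h3⟩]
          norm_num
        · rw [if_neg (by omega), if_neg (fun h4 => h3 h4.2)]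
          norm_num
      · simp only [if_neg hr, Nat.and_zero]
        rw [if_neg (fun h4 => hr h4.1)]
        norm_num
    · intro i hi r _
      have h1 := hx i hi r
      show _ + (onS P1 128 r - l i r) < 2 ^ 8
      unfold onS
      split_ifs <;> omega
    · intro i _ r _
      show onS P1 128 r < 2 ^ 8
      unfold onS
      split_ifs <;> norm_num
  rw [e2]
  have e3 : cube n (fun i r => 2 ^ 7 * (if r ∈ P1 ∧ l i r ≤ xF (tF (fF (u i) (v i) (p i))) (a i) r
      then 1 else 0)) = 2 ^ 7 * cube n (fun i r =>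
      if r ∈ P1 ∧ l i r ≤ xF (tF (fF (u i) (v i) (p i))) (a i) r then 1 else 0) := by
    unfold cube
    rw [mul_pk]
    refine pk_congr fun i _ => ?_
    rw [mul_pk]
  have e4 : cube n (fun i r => 2 ^ 7 * (if r ∈ P1 ∧ l i r ≤ xF (tF (fF (u i) (v i) (p i))) (a i) r
      then 1 else 0)) - (cube n (fun i r => 2 ^ 7 * (if r ∈ P1 ∧ l i r ≤
        xF (tF (fF (u i) (v i) (p i))) (a i) r then 1 else 0))) >>> 7 =
      cube n (fun i r => if r ∈ P1 ∧ l i r ≤ xF (tF (fF (u i) (v i) (p i))) (a i) r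
      then 127 else 0) := by
    have e5 : (cube n (fun i r => 2 ^ 7 * (if r ∈ P1 ∧ l i r ≤
        xF (tF (fF (u i) (v i) (p i))) (a i) r then 1 else 0))) >>> 7 = cube n (fun i r =>
      if r ∈ P1 ∧ l i r ≤ xF (tF (fF (u i) (v i) (p i))) (a i) r then 1 else 0) := by
      rw [e3, Nat.shiftRight_eq_div_pow, Nat.mul_div_cancel_left _ (Nat.two_pow_pos 7)]
    rw [e5, cube_sub]
    · refine cube_congr fun i _ r _ => ?_
      split_ifs <;> norm_num
    · intro i _ r _
      split_ifs <;> norm_num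
  rw [e4, cube_xor, cube_land, cube_xor]
  · refine cube_congr fun i hi r _ => ?_
    have h1 := hx i hi r
    have h2 := (h i hi).l1 r
    show ((xF (tF (fF (u i) (v i) (p i))) (a i) r ^^^ l i r) &&&
      (if r ∈ P1 ∧ l i r ≤ xF (tF (fF (u i) (v i) (p i))) (a i) r then 127 else 0)) ^^^ l i r =
      rF (u i) (v i) (p i) (a i) (l i) r
    unfold rF
    by_cases hr : r ∈ P1 ∧ l i r ≤ xF (tF (fF (u i) (v i) (p i))) (a i) r
    · rw [if_pos hr, land127, Nat.xor_assoc, Nat.xor_self, Nat.xor_zero, max_eq_right hr.2]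
      have h3 := Nat.xor_lt_two_pow (n := 7) (x := xF (tF (fF (u i) (v i) (p i))) (a i) r)
        (y := l i r) (by omega) (by omega)
      omega
    · rw [if_neg hr, Nat.and_zero, Nat.zero_xor, max_eq_left]
      by_cases hr1 : r ∈ P1
      · by_contra h4
        exact hr ⟨hr1, by omega⟩
      · unfold xF
        rw [if_neg hr1]
        exact Nat.zero_le _
  · intro i hi r _
    have h1 := hx i hi r
    have h2 := (h i hi).l1 r
    show (xF (tF (fF (u i) (v i) (p i))) (a i) r ^^^ l i r) &&& _ < 2 ^ 8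
    exact lt_of_le_of_lt Nat.and_le_left (Nat.xor_lt_two_pow (by omega) (by omega))
  · intro i hi r _
    have h2 := (h i hi).l1 r
    omega
  · intro i hi r _
    have h2 := (h i hi).l1 r
    exact Nat.xor_lt_two_pow (lt_of_le_of_lt (hx i hi r) (by norm_num)) (by omega)
  · intro i _ r _
    show (if _ then 127 else 0) < 2 ^ 8
    split_ifs <;> norm_num
  · intro i hi r _
    exact lt_of_le_of_lt (hx i hi r) (by norm_num)
  · intro i hi r _
    have h2 := (h i hi).l1 r
    omega

end Pool.Agent.Helper97.CV.Kill10
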