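import Pool.Agent.Helper97.CV.Count
import Pool.Agent.Helper97.CV.KillW

/-!
TH-Y': soundness of the packed kill test for odd `(13,5,4)`-covers with at most 157 blocks.
-/

set_option autoImplicit false

namespace Pool.Agent.Helper97.CV.KillW

open Finset Pool.Agent.Helper63.SIMD Pool.Agent.Helper89.CV

/-- the arithmetic value of lane `i` -/
def laneVal (l f : ℕ → ℕ) (i : ℕ) : ℕ :=
  ∑ z ∈ range 14, max (l (14 * i + z))
    (2 * ((∑ v ∈ range 13, (f (13 * (14 * i + z) + v) + 1) / 3 + 1) / 2))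

/-- `f`, `l` are valid lower bounds for `B` in lane `i`, with known bad quads `g` -/
structure Valid (B : Finset (Finset (Fin 13))) (g : Finset (Fin 13) → ℕ) (l f : ℕ → ℕ) (i : ℕ) :
    Prop where
  le_ex : ∀ q, q.card = 4 → g q ≤ ex B q
  pair : ∀ z v : Fin 13, z ≠ v → f (13 * (14 * i + z.val) + v.val) ≤ LamW g {z, v}
  diag : ∀ z : Fin 13, f (13 * (14 * i + z.val) + z.val) ≤ 1
  last : ∀ v : ℕ, v < 13 → f (13 * (14 * i + 13) + v) ≤ 1
  low : ∀ z : Fin 13, l (14 * i + z.val) ≤ MM B z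
  lowlast : l (14 * i + 13) = 0

theorem row_sum {g : Finset (Fin 13) → ℕ} {f : ℕ → ℕ} {i : ℕ} (z : Fin 13)
    (hp : ∀ v : Fin 13, z ≠ v → f (13 * (14 * i + z.val) + v.val) ≤ LamW g {z, v})
    (hd : f (13 * (14 * i + z.val) + z.val) ≤ 1) :
    2 * ((∑ v ∈ range 13, (f (13 * (14 * i + z.val) + v) + 1) / 3 + 1) / 2) ≤ mlow g z := by
  have h : ∑ v ∈ range 13, (f (13 * (14 * i + z.val) + v) + 1) / 3 ≤
      ∑ v ∈ ({z} : Finset (Fin 13))ᶜ, (LamW g {z, v} + 1) / 3 := by
    rw [← Fin.sum_univ_eq_sum_range (fun v => (f (13 * (14 * i + z.val) + v) + 1) / 3) 13]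
    have h1 : (univ : Finset (Fin 13)) = insert z ({z} : Finset (Fin 13))ᶜ := by
      ext v
      simp only [mem_univ, mem_insert, mem_compl, mem_singleton, true_iff]
      tauto
    rw [h1, sum_insert (by simp)]
    have h2 : (f (13 * (14 * i + z.val) + z.val) + 1) / 3 = 0 := by omega
    rw [h2, zero_add]
    refine sum_le_sum fun v hv => ?_
    rw [mem_compl, mem_singleton] at hv
    have := hp v (fun h => hv h.symm)
    omega
  unfold mlow
  omega

theorem laneVal_le {B : Finset (Finset (Fin 13))} (hB : OddCover B) (h157 : B.card ≤ 157)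
    {g : Finset (Fin 13) → ℕ} {l f : ℕ → ℕ} {i : ℕ} (h : Valid B g l f i) : laneVal l f i ≤ 88 := by
  refine le_trans ?_ (kill hB h157 h.le_ex h.low)
  unfold laneVal
  rw [sum_range_succ]
  have h1 : max (l (14 * i + 13))
      (2 * ((∑ v ∈ range 13, (f (13 * (14 * i + 13) + v) + 1) / 3 + 1) / 2)) = 0 := by
    have h2 : ∑ v ∈ range 13, (f (13 * (14 * i + 13) + v) + 1) / 3 = 0 := by
      refine sum_eq_zero fun v hv => ?_
      have := h.last v (mem_range.1 hv)
      omega
    rw [h2, h.lowlast]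
    simp
  rw [h1, add_zero, ← Fin.sum_univ_eq_sum_range (fun z => max (l (14 * i + z))
    (2 * ((∑ v ∈ range 13, (f (13 * (14 * i + z) + v) + 1) / 3 + 1) / 2))) 13]
  exact sum_le_sum fun z _ => max_le_max le_rfl (row_sum z (h.pair z) (h.diag z))

/-- a lane with valid data has its bit equal to zero -/
theorem killL_lane {B : Finset (Finset (Fin 13))} (hB : OddCover B) (h157 : B.card ≤ 157)
    {n : ℕ} {f l : ℕ → ℕ} (hf : ∀ i, f i ≤ 126) (hl : ∀ i, l i < 4096) {g : Finset (Fin 13) → ℕ}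
    {i : ℕ} (hi : i < n) (h : Valid B g l f i) :
    fld 2366 (killL n (pk 169 (14 * n) l) (pk 13 (182 * n) f)) i = 0 := by
  rw [killL_pk hf hl, fld_pk _ hi]
  · have h1 := laneVal_le hB h157 h
    unfold laneVal at h1
    exact if_neg (by omega)
  · intro j _
    split_ifs
    · exact Nat.pow_lt_pow_right (by norm_num) (by norm_num)
    · exact Nat.two_pow_pos _

end Pool.Agent.Helper97.CV.KillW
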